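import Pool.Agent.Helper40.FL.A2

/-!
# The sharp threshold for fractional Latin squares in random triple systems

A fractional Latin square is a nonnegative `n × n × n` array all of whose `3n²` line sums are `1`;
the `0/1` arrays of this kind are the Latin squares. The sharp threshold for a random set `S` of
triples to carry a fractional Latin square is `2 log n / n`, and above it the weights can be taken
within a factor `1 ± θ` of `(pn)² / (d₁ d₂ d₃)`, the `dᵢ` being the numbers of members of `S` on
the three lines through the cell.

Proof. By duality (Hahn-Banach) it is enough that, with high probability, every function `y` on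
the `3n²` lines satisfies `∑_{x ∈ S} |y(x)| ≥ c pn dist(y, K)`, where `y(x)` is the sum of `y` over
the three lines through `x` and `K` is the space of functions with all these sums zero. If `y` is
closest to `0` in its class, then at every vertex the positive part on one side and the negative part
on the other have total size at most `n` (median condition). Small level sets are handled by
the co-area formula and the sparsity of the links of `S`, the bulk by a union bound over
discretised functions and coning in the complete structure.
-/

set_option autoImplicit false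
open Classical Filter Topology

namespace Pool.Agent.Results.MP_56dece_co.FractionalSharpThreshold

/-- The probability that the random set of triples, each member of `[n]³` being present
independently with probability `p`, has the property `A`. -/
noncomputable def prob (n : ℕ) (p : ℝ) (A : Finset (Fin n × Fin n × Fin n) → Prop) : ℝ :=
  ∑ S ∈ (Finset.univ : Finset (Finset (Fin n × Fin n × Fin n))).filter A,
    p ^ S.card * (1 - p) ^ (n ^ 3 - S.card)

/-- `w` is a fractional Latin square supported on `S`: a nonnegative array, zero outside `S`, with
all line sums equal to `1`. -/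
def IsFracLatin {n : ℕ} (S : Finset (Fin n × Fin n × Fin n)) (w : Fin n → Fin n → Fin n → ℝ) :
    Prop :=
  (∀ i j k, 0 ≤ w i j k) ∧ (∀ i j k, (i, j, k) ∉ S → w i j k = 0) ∧
    (∀ i j, ∑ k, w i j k = 1) ∧ (∀ i k, ∑ j, w i j k = 1) ∧ (∀ j k, ∑ i, w i j k = 1)

/-- The product of the numbers of members of `S` on the three lines through the cell `(i, j, k)`. -/
noncomputable def degProd {n : ℕ} (S : Finset (Fin n × Fin n × Fin n)) (i j k : Fin n) : ℝ :=
  ((S.filter fun x => x.1 = i ∧ x.2.1 = j).card : ℝ) *
    (S.filter fun x => x.1 = i ∧ x.2.2 = k).card * (S.filter fun x => x.2.1 = j ∧ x.2.2 = k).card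

/-- Above `2 log n / n` a fractional Latin square supported on `S`, close to the explicit weights,
exists asymptotically almost surely; below `2 log n / n` none exists asymptotically almost surely. -/
theorem result (ε : ℝ) (hε : 0 < ε) (p : ℕ → ℝ) (hp : ∀ n, 0 ≤ p n ∧ p n ≤ 1) :
    (∀ θ : ℝ, 0 < θ → (∀ᶠ n : ℕ in atTop, (2 + ε) * Real.log (n : ℝ) / (n : ℝ) ≤ p n) →
      Tendsto (fun n : ℕ => prob n (p n) fun S => ∃ w, IsFracLatin S w ∧
        ∀ i j k, (i, j, k) ∈ S → |w i j k * degProd S i j k / (p n * n) ^ 2 - 1| ≤ θ)
        atTop (𝓝 1)) ∧
    ((∀ᶠ n : ℕ in atTop, p n ≤ (2 - ε) * Real.log (n : ℝ) / (n : ℝ)) →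
      Tendsto (fun n : ℕ => prob n (p n) fun S => ∃ w, IsFracLatin S w) atTop (𝓝 0)) := by
  refine ⟨fun θ hθ h => ?_, fun h => ?_⟩
  · have h1 := Pool.Agent.Helper40.FL.upper hε hθ p hp h
    refine h1.congr fun n => ?_
    rw [prob]
    refine Finset.sum_congr (Finset.filter_congr fun S _ => ?_) fun _ _ => rfl
    constructor
    · rintro ⟨w, a1, a2, a3, a4, a5, a6⟩
      exact ⟨w, ⟨a1, a2, a4, a5, a6⟩, a3⟩
    · rintro ⟨w, ⟨a1, a2, a4, a5, a6⟩, a3⟩
      exact ⟨w, a1, a2, a3, a4, a5, a6⟩
  · exact Pool.Agent.Helper40.FL.lower hε p hp h

end Pool.Agent.Results.MP_56dece_co.FractionalSharpThreshold
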